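import Pool.Agent.R974.BW.Defs

set_option autoImplicit false

namespace Pool.Agent.R670.BW

open MeasureTheory ProbabilityTheory Filter Topology Set
open Pool.Agent.R967.FB Pool.Agent.R974.BW
open scoped ENNReal NNReal

theorem PP_shift (L : List (ℝ≥0 × (ℝ → ℝ≥0∞))) : ∀ (t : ℝ≥0) (f : ℝ≥0 → ℝ),
    PP L t f = PP L 0 (fun s => f (t + s)) := by
  induction L with
  | nil => intro t f; rfl
  | cons p L ih =>
    intro t f
    show p.2 (f (t + p.1)) * PP L (t + p.1) f =
      p.2 (f (t + (0 + p.1))) * PP L (0 + p.1) (fun s => f (t + s))
    rw [ih (t + p.1), ih (0 + p.1), zero_add]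
    simp only [add_assoc]

theorem t_PFP : S_PFP := by
  intro L ψ
  induction L with
  | nil =>
    intro x w hx hw
    have h1 : w ∈ Up x (total []) := by
      intro s hs
      have h2 : s = 0 := le_antisymm hs zero_le
      rw [h2, hw, add_zero]
      exact hx
    rw [indicator_of_mem h1]
    show ψ x = 1 * ψ (x + w 0)
    rw [hw, add_zero, one_mul]
  | cons p L ih =>
    intro x w hx hw
    have htot : total (p :: L) = p.1 + total L := by simp [total]
    show (Up x p.1).indicator
      (fun w => p.2 (x + w p.1) * PF L ψ (x + w p.1) (shift p.1 w)) w = _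
    have hsh : ∀ s : ℝ≥0, x + w p.1 + shift p.1 w s = x + w (p.1 + s) := by
      intro s
      show x + w p.1 + (w (p.1 + s) - w p.1) = x + w (p.1 + s)
      ring
    by_cases hU : w ∈ Up x p.1
    · have hx' : 0 < x + w p.1 := hU p.1 le_rfl
      have hw' : shift p.1 w 0 = 0 := by
        show w (p.1 + 0) - w p.1 = 0
        rw [add_zero, sub_self]
      rw [indicator_of_mem hU, ih (x + w p.1) (shift p.1 w) hx' hw']
      by_cases hV : shift p.1 w ∈ Up (x + w p.1) (total L)
      · have hT : w ∈ Up x (total (p :: L)) := by
          rw [htot]
          intro s hs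
          rcases le_total s p.1 with h | h
          · exact hU s h
          · obtain ⟨r, rfl⟩ := exists_add_of_le h
            have h2 := hV r (le_of_add_le_add_left hs)
            rw [hsh] at h2
            exact h2
        rw [indicator_of_mem hV, indicator_of_mem hT, htot]
        show p.2 (x + w p.1) * (PP L 0 (fun s => x + w p.1 + shift p.1 w s) *
          ψ (x + w p.1 + shift p.1 w (total L))) =
          p.2 (x + w (0 + p.1)) * PP L (0 + p.1) (fun s => x + w s) * ψ (x + w (p.1 + total L))
        rw [PP_shift L (0 + p.1), zero_add, hsh]
        simp only [hsh]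
        rw [mul_assoc]
      · have hT : w ∉ Up x (total (p :: L)) := by
          rw [htot]
          intro hT
          apply hV
          intro s hs
          rw [hsh]
          exact hT _ (by gcongr)
        rw [indicator_of_notMem hV, indicator_of_notMem hT, mul_zero]
    · have hT : w ∉ Up x (total (p :: L)) := by
        rw [htot]
        intro hT
        apply hU
        intro s hs
        exact hT s (hs.trans le_self_add)
      rw [indicator_of_notMem hU, indicator_of_notMem hT]

end Pool.Agent.R670.BW
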