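import Pool.Agent.R974.BW.Defs

set_option autoImplicit false

namespace Pool.Agent.R670.BW

open MeasureTheory ProbabilityTheory Filter Topology Set
open Pool.Agent.R967.FB Pool.Agent.R974.BW
open scoped ENNReal NNReal

theorem t_SHC : S_SHC := by
  apply ContinuousMap.continuous_of_continuous_uncurry
  show Continuous fun p : (Pth × ℝ≥0) × ℝ≥0 => shift p.1.2 p.1.1 p.2
  unfold shift
  simp only [ContinuousMap.coe_mk]
  fun_prop

end Pool.Agent.R670.BW
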