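import Pool.Agent.R974.BW.Defs

set_option autoImplicit false

namespace Pool.Agent.R670.BW

open MeasureTheory ProbabilityTheory Filter Topology Set
open Pool.Agent.R967.FB Pool.Agent.R974.BW
open scoped ENNReal NNReal

theorem t_UPM : S_UPM := by
  intro t
  have h1 : Continuous fun p : ℝ × Pth => ContinuousMap.const ℝ≥0 p.1 + p.2 :=
    (ContinuousMap.continuous_const'.comp continuous_fst).add continuous_snd
  have h2 : IsOpen {f : Pth | MapsTo f (Icc 0 t) (Ioi 0)} :=
    ContinuousMap.isOpen_setOfPred_mapsTo isCompact_Icc isOpen_Ioi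
  have h3 : {p : ℝ × Pth | p.2 ∈ Up p.1 t} =
      (fun p : ℝ × Pth => ContinuousMap.const ℝ≥0 p.1 + p.2) ⁻¹'
        {f : Pth | MapsTo f (Icc 0 t) (Ioi 0)} := by
    ext p
    constructor
    · intro h s hs
      exact h s hs.2
    · intro h s hs
      exact h ⟨zero_le, hs⟩
  rw [h3]
  exact h2.preimage h1

end Pool.Agent.R670.BW
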