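import Mathlib

/-!
# Joining two polyominoes through a central cell

`s * t(n)^2 ≤ 2 * t(2n+1)` whenever `s^2 ≤ n`, where `t(n)` is the number of fixed `n`-ominoes.
-/

set_option autoImplicit false
open Finset

namespace Pool.Agent.R670.Poly

/-- A cell, given by its lower left corner. -/
abbrev Cell := ℤ × ℤ

/-- The cells `a` and `b` share an edge. -/
def Adj (a b : Cell) : Prop :=
  (a.1 = b.1 ∧ (a.2 = b.2 + 1 ∨ b.2 = a.2 + 1)) ∨ (a.2 = b.2 ∧ (a.1 = b.1 + 1 ∨ b.1 = a.1 + 1))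

/-- edge-connected -/
def Conn (S : Finset Cell) : Prop :=
  ∀ a ∈ S, ∀ b ∈ S, Relation.ReflTransGen (fun x y => x ∈ S ∧ y ∈ S ∧ Adj x y) a b

/-- an `n`-omino -/
def IsOmino (n : ℕ) (S : Finset Cell) : Prop := S.card = n ∧ Conn S

theorem Adj.symm {a b : Cell} (h : Adj a b) : Adj b a := by
  unfold Adj at *
  omega

/-- translate -/
def tr (v : Cell) (S : Finset Cell) : Finset Cell := S.image (fun p => p + v)

theorem mem_tr {v p : Cell} {S : Finset Cell} : p ∈ tr v S ↔ p - v ∈ S := by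
  unfold tr
  rw [mem_image]
  constructor
  · rintro ⟨q, hq, rfl⟩
    rwa [add_sub_cancel_right]
  · intro h
    exact ⟨p - v, h, sub_add_cancel p v⟩

theorem add_mem_tr {v p : Cell} {S : Finset Cell} (h : p ∈ S) : p + v ∈ tr v S := by
  rw [mem_tr, add_sub_cancel_right]
  exact h

theorem card_tr (v : Cell) (S : Finset Cell) : (tr v S).card = S.card :=
  card_image_of_injective _ (add_left_injective v)

theorem tr_tr (v w : Cell) (S : Finset Cell) : tr w (tr v S) = tr (v + w) S := by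
  ext p
  rw [mem_tr, mem_tr, mem_tr, sub_sub, add_comm v w]

theorem tr_zero (S : Finset Cell) : tr 0 S = S := by
  ext p
  rw [mem_tr, sub_zero]

theorem tr_union (v : Cell) (S T : Finset Cell) : tr v (S ∪ T) = tr v S ∪ tr v T := by
  unfold tr
  exact image_union _ _

theorem tr_insert (v c : Cell) (S : Finset Cell) : tr v (insert c S) = insert (c + v) (tr v S) := by
  unfold tr
  exact image_insert _ _ _

theorem adj_add {a b : Cell} (v : Cell) : Adj (a + v) (b + v) ↔ Adj a b := by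
  unfold Adj
  simp only [Prod.fst_add, Prod.snd_add]
  constructor <;> intro h <;> omega

theorem conn_tr (v : Cell) {S : Finset Cell} (h : Conn S) : Conn (tr v S) := by
  intro a ha b hb
  have h1 := h (a - v) (mem_tr.1 ha) (b - v) (mem_tr.1 hb)
  have key : ∀ z, Relation.ReflTransGen (fun x y => x ∈ S ∧ y ∈ S ∧ Adj x y) (a - v) z →
      Relation.ReflTransGen (fun x y => x ∈ tr v S ∧ y ∈ tr v S ∧ Adj x y) a (z + v) := by
    intro z hz
    induction hz with
    | refl => rw [sub_add_cancel]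
    | tail _ hyz ih =>
      exact ih.tail ⟨add_mem_tr hyz.1, add_mem_tr hyz.2.1, (adj_add v).2 hyz.2.2⟩
  have h2 := key _ h1
  rwa [sub_add_cancel] at h2

theorem omino_tr {n : ℕ} (v : Cell) {S : Finset Cell} (h : IsOmino n S) : IsOmino n (tr v S) :=
  ⟨(card_tr v S).trans h.1, conn_tr v h.2⟩

theorem rel_mono {S T : Finset Cell} (h : S ⊆ T) {a b : Cell}
    (hab : Relation.ReflTransGen (fun x y => x ∈ S ∧ y ∈ S ∧ Adj x y) a b) :
    Relation.ReflTransGen (fun x y => x ∈ T ∧ y ∈ T ∧ Adj x y) a b := by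
  induction hab with
  | refl => exact Relation.ReflTransGen.refl
  | tail _ hyz ih => exact ih.tail ⟨h hyz.1, h hyz.2.1, hyz.2.2⟩

theorem rel_symm (S : Finset Cell) {a b : Cell}
    (hab : Relation.ReflTransGen (fun x y => x ∈ S ∧ y ∈ S ∧ Adj x y) a b) :
    Relation.ReflTransGen (fun x y => x ∈ S ∧ y ∈ S ∧ Adj x y) b a := by
  induction hab with
  | refl => exact Relation.ReflTransGen.refl
  | tail _ hyz ih => exact Relation.ReflTransGen.head ⟨hyz.2.1, hyz.1, hyz.2.2.symm⟩ ih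

theorem conn_join {P Q : Finset Cell} (hP : Conn P) (hQ : Conn Q) {p q c : Cell} (hp : p ∈ P)
    (hq : q ∈ Q) (hpc : Adj p c) (hqc : Adj q c) : Conn (insert c (P ∪ Q)) := by
  have key : ∀ x ∈ insert c (P ∪ Q), Relation.ReflTransGen
      (fun x y => x ∈ insert c (P ∪ Q) ∧ y ∈ insert c (P ∪ Q) ∧ Adj x y) x c := by
    intro x hx
    have hPs : P ⊆ insert c (P ∪ Q) := fun y hy => mem_insert_of_mem (mem_union_left _ hy)
    have hQs : Q ⊆ insert c (P ∪ Q) := fun y hy => mem_insert_of_mem (mem_union_right _ hy)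
    rcases mem_insert.1 hx with rfl | hx
    · exact Relation.ReflTransGen.refl
    · rcases mem_union.1 hx with hx | hx
      · exact (rel_mono hPs (hP x hx p hp)).tail ⟨hPs hp, mem_insert_self _ _, hpc⟩
      · exact (rel_mono hQs (hQ x hx q hq)).tail ⟨hQs hq, mem_insert_self _ _, hqc⟩
  intro a ha b hb
  exact (key a ha).trans (rel_symm _ (key b hb))

theorem conn_add {P : Finset Cell} (hP : Conn P) {p c : Cell} (hp : p ∈ P) (hpc : Adj p c) :
    Conn (insert c P) := by
  have := conn_join hP hP hp hp hpc hpc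
  rwa [union_self] at this

/-- a connected set inside two sets that do not touch is inside one of them -/
theorem conn_split {S A B : Finset Cell} (hS : Conn S) (hSAB : S ⊆ A ∪ B)
    (hAB : ∀ a ∈ A, ∀ b ∈ B, ¬ Adj a b) : S ⊆ A ∨ S ⊆ B := by
  rcases S.eq_empty_or_nonempty with rfl | ⟨s, hs⟩
  · exact Or.inl (empty_subset _)
  rcases mem_union.1 (hSAB hs) with hsA | hsB
  · left
    intro x hx
    have h := hS s hs x hx
    clear hx
    induction h with
    | refl => exact hsA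
    | tail _ hyz ih =>
      rcases mem_union.1 (hSAB hyz.2.1) with h | h
      · exact h
      · exact absurd hyz.2.2 (hAB _ ih _ h)
  · right
    intro x hx
    have h := hS s hs x hx
    clear hx
    induction h with
    | refl => exact hsB
    | tail _ hyz ih =>
      rcases mem_union.1 (hSAB hyz.2.1) with h | h
      · exact absurd hyz.2.2.symm (hAB _ h _ ih)
      · exact h

/-- the two sets do not touch -/
def Apart (P Q : Finset Cell) : Prop := ∀ p ∈ P, ∀ q ∈ Q, p ≠ q ∧ ¬ Adj p q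

theorem Apart.symm {P Q : Finset Cell} (h : Apart P Q) : Apart Q P :=
  fun q hq p hp => ⟨(h p hp q hq).1.symm, fun h2 => (h p hp q hq).2 h2.symm⟩

theorem uniq_aux {n : ℕ} {P Q P' Q' : Finset Cell} {c c' : Cell}
    (hQ : IsOmino n Q) (hP' : IsOmino n P') (hQ' : IsOmino n Q')
    (hPQ : Apart P Q) (hPQ' : Apart P' Q') (hc : c ∉ P ∪ Q)
    (hcQ : ∃ q ∈ Q, Adj q c) (h : insert c (P ∪ Q) = insert c' (P' ∪ Q')) (hne : c ≠ c')
    (hc'P : c' ∈ P) : False := by
  obtain ⟨q, hq, hqc⟩ := hcQ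
  have hS : Conn (insert c Q) := conn_add hQ.2 hq hqc
  have hsub : insert c Q ⊆ P' ∪ Q' := by
    intro x hx
    have hx1 : x ∈ insert c (P ∪ Q) := by
      rcases mem_insert.1 hx with rfl | hx
      · exact mem_insert_self _ _
      · exact mem_insert_of_mem (mem_union_right _ hx)
    rw [h] at hx1
    rcases mem_insert.1 hx1 with hx2 | hx2
    · exfalso
      rcases mem_insert.1 hx with hx | hx
      · exact hne (hx.symm.trans hx2)
      · exact (hPQ c' hc'P x hx).1 hx2.symm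
    · exact hx2
  have hcard : (insert c Q).card = n + 1 := by
    rw [card_insert_of_notMem (fun hh => hc (mem_union_right _ hh)), hQ.1]
  rcases conn_split hS hsub (fun a ha b hb => (hPQ' a ha b hb).2) with h1 | h1
  · have := card_le_card h1
    rw [hcard, hP'.1] at this
    omega
  · have := card_le_card h1
    rw [hcard, hQ'.1] at this
    omega

theorem uniq {n : ℕ} (hn : 1 ≤ n) {P Q P' Q' : Finset Cell} {c c' : Cell}
    (hP : IsOmino n P) (hQ : IsOmino n Q) (hP' : IsOmino n P') (hQ' : IsOmino n Q')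
    (hPQ : Apart P Q) (hPQ' : Apart P' Q') (hc : c ∉ P ∪ Q) (hc' : c' ∉ P' ∪ Q')
    (hcP : ∃ p ∈ P, Adj p c) (hcQ : ∃ q ∈ Q, Adj q c)
    (h : insert c (P ∪ Q) = insert c' (P' ∪ Q')) :
    (P = P' ∧ Q = Q') ∨ (P = Q' ∧ Q = P') := by
  have hcc : c = c' := by
    by_contra hne
    have h1 : c' ∈ insert c (P ∪ Q) := by rw [h]; exact mem_insert_self _ _
    rcases mem_insert.1 h1 with h2 | h2
    · exact hne h2.symm
    · rcases mem_union.1 h2 with h3 | h3
      · exact uniq_aux hQ hP' hQ' hPQ hPQ' hc hcQ h hne h3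
      · exact uniq_aux (P := Q) (Q := P) hP hP' hQ' hPQ.symm hPQ' (by rwa [union_comm]) hcP
          (by rw [union_comm]; exact h) hne h3
  subst hcc
  have hU : P ∪ Q = P' ∪ Q' := by
    rw [← erase_insert hc, h, erase_insert hc']
  have hPs : P ⊆ P' ∪ Q' := by rw [← hU]; exact subset_union_left
  have hQs : Q ⊆ P' ∪ Q' := by rw [← hU]; exact subset_union_right
  have hne : P ≠ Q := by
    intro he
    have : P.Nonempty := card_pos.1 (by rw [hP.1]; omega)
    obtain ⟨p, hp⟩ := this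
    exact (hPQ p hp p (he ▸ hp)).1 rfl
  have hd := fun a ha b hb => (hPQ' a ha b hb).2
  rcases conn_split hP.2 hPs hd with h1 | h1 <;> rcases conn_split hQ.2 hQs hd with h2 | h2
  · exfalso
    apply hne
    rw [eq_of_subset_of_card_le h1 (by rw [hP.1, hP'.1]),
      eq_of_subset_of_card_le h2 (by rw [hQ.1, hP'.1])]
  · exact Or.inl ⟨eq_of_subset_of_card_le h1 (by rw [hP.1, hP'.1]),
      eq_of_subset_of_card_le h2 (by rw [hQ.1, hQ'.1])⟩
  · exact Or.inr ⟨eq_of_subset_of_card_le h1 (by rw [hP.1, hQ'.1]),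
      eq_of_subset_of_card_le h2 (by rw [hQ.1, hP'.1])⟩
  · exfalso
    apply hne
    rw [eq_of_subset_of_card_le h1 (by rw [hP.1, hQ'.1]),
      eq_of_subset_of_card_le h2 (by rw [hQ.1, hQ'.1])]

/-- `v` is a shift of `Q` which does not touch `P` but for which one cell touches both -/
def Good (P Q : Finset Cell) (v : Cell) : Prop :=
  (∀ p ∈ P, ∀ q ∈ Q, p ≠ q + v ∧ ¬ Adj p (q + v)) ∧
    ∃ c, (∃ p ∈ P, Adj p c) ∧ (∃ q ∈ Q, Adj (q + v) c)

theorem slide_x {P Q : Finset Cell} {p₀ q₀ : Cell} (hp₀ : p₀ ∈ P) (hq₀ : q₀ ∈ Q) :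
    ∃ x : ℤ, Good P Q (x, p₀.2 - q₀.2) := by
  set t := p₀.2 - q₀.2 with ht
  have hinh : ∃ x : ℤ, ∃ p ∈ P, ∃ q ∈ Q, p = q + (x, t) ∨ Adj p (q + (x, t)) := by
    refine ⟨p₀.1 - q₀.1, p₀, hp₀, q₀, hq₀, Or.inl ?_⟩
    refine Prod.ext ?_ ?_
    · simp only [Prod.fst_add]; omega
    · simp only [Prod.snd_add]; omega
  have hbdd : ∃ b : ℤ, ∀ x : ℤ, (∃ p ∈ P, ∃ q ∈ Q, p = q + (x, t) ∨ Adj p (q + (x, t))) → x ≤ b := by
    obtain ⟨M, hM⟩ := ((P ×ˢ Q).image fun z : Cell × Cell => z.1.1 - z.2.1 + 1).exists_le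
    refine ⟨M, ?_⟩
    rintro x ⟨p, hp, q, hq, h⟩
    have h1 := hM (p.1 - q.1 + 1) (mem_image.2 ⟨(p, q), mem_product.2 ⟨hp, hq⟩, rfl⟩)
    have h2 : x ≤ p.1 - q.1 + 1 := by
      rcases h with h | h
      · rw [h]; simp only [Prod.fst_add]; omega
      · unfold Adj at h
        simp only [Prod.fst_add, Prod.snd_add] at h
        omega
    omega
  obtain ⟨u, ⟨p, hp, q, hq, hpq⟩, hmax⟩ := Int.exists_greatest_of_bdd hbdd hinh
  refine ⟨u + 1, ?_, ?_⟩
  · intro p hp q hq
    constructor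
    · intro h
      have := hmax (u + 1) ⟨p, hp, q, hq, Or.inl h⟩
      omega
    · intro h
      have := hmax (u + 1) ⟨p, hp, q, hq, Or.inr h⟩
      omega
  · have hno : ¬ Adj p (q + (u + 1, t)) := by
      intro h
      have := hmax (u + 1) ⟨p, hp, q, hq, Or.inr h⟩
      omega
    have hno2 : ¬ (p.1 = q.1 + (u + 1) ∧ p.2 = q.2 + t) := by
      intro h
      have := hmax (u + 1) ⟨p, hp, q, hq, Or.inl (Prod.ext h.1 h.2)⟩
      omega
    refine ⟨(p.1 + 1, p.2), ⟨p, hp, ?_⟩, q, hq, ?_⟩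
    · unfold Adj; simp
    · have hpq' : (p.1 = q.1 + u ∧ p.2 = q.2 + t) ∨ Adj p (q + (u, t)) := by
        rcases hpq with h | h
        · left
          exact ⟨congrArg Prod.fst h, congrArg Prod.snd h⟩
        · exact Or.inr h
      unfold Adj at hno hpq' ⊢
      simp only [Prod.fst_add, Prod.snd_add] at hno hpq' ⊢
      omega

theorem slide_y {P Q : Finset Cell} {p₀ q₀ : Cell} (hp₀ : p₀ ∈ P) (hq₀ : q₀ ∈ Q) :
    ∃ y : ℤ, Good P Q (p₀.1 - q₀.1, y) := by
  set t := p₀.1 - q₀.1 with ht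
  have hinh : ∃ x : ℤ, ∃ p ∈ P, ∃ q ∈ Q, p = q + (t, x) ∨ Adj p (q + (t, x)) := by
    refine ⟨p₀.2 - q₀.2, p₀, hp₀, q₀, hq₀, Or.inl ?_⟩
    refine Prod.ext ?_ ?_
    · simp only [Prod.fst_add]; omega
    · simp only [Prod.snd_add]; omega
  have hbdd : ∃ b : ℤ, ∀ x : ℤ, (∃ p ∈ P, ∃ q ∈ Q, p = q + (t, x) ∨ Adj p (q + (t, x))) → x ≤ b := by
    obtain ⟨M, hM⟩ := ((P ×ˢ Q).image fun z : Cell × Cell => z.1.2 - z.2.2 + 1).exists_le
    refine ⟨M, ?_⟩
    rintro x ⟨p, hp, q, hq, h⟩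
    have h1 := hM (p.2 - q.2 + 1) (mem_image.2 ⟨(p, q), mem_product.2 ⟨hp, hq⟩, rfl⟩)
    have h2 : x ≤ p.2 - q.2 + 1 := by
      rcases h with h | h
      · rw [h]; simp only [Prod.snd_add]; omega
      · unfold Adj at h
        simp only [Prod.fst_add, Prod.snd_add] at h
        omega
    omega
  obtain ⟨u, ⟨p, hp, q, hq, hpq⟩, hmax⟩ := Int.exists_greatest_of_bdd hbdd hinh
  refine ⟨u + 1, ?_, ?_⟩
  · intro p hp q hq
    constructor
    · intro h
      have := hmax (u + 1) ⟨p, hp, q, hq, Or.inl h⟩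
      omega
    · intro h
      have := hmax (u + 1) ⟨p, hp, q, hq, Or.inr h⟩
      omega
  · have hno : ¬ Adj p (q + (t, u + 1)) := by
      intro h
      have := hmax (u + 1) ⟨p, hp, q, hq, Or.inr h⟩
      omega
    have hno2 : ¬ (p.1 = q.1 + t ∧ p.2 = q.2 + (u + 1)) := by
      intro h
      have := hmax (u + 1) ⟨p, hp, q, hq, Or.inl (Prod.ext h.1 h.2)⟩
      omega
    refine ⟨(p.1, p.2 + 1), ⟨p, hp, ?_⟩, q, hq, ?_⟩
    · unfold Adj; simp
    · have hpq' : (p.1 = q.1 + t ∧ p.2 = q.2 + u) ∨ Adj p (q + (t, u)) := by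
        rcases hpq with h | h
        · left
          exact ⟨congrArg Prod.fst h, congrArg Prod.snd h⟩
        · exact Or.inr h
      unfold Adj at hno hpq' ⊢
      simp only [Prod.fst_add, Prod.snd_add] at hno hpq' ⊢
      omega

theorem many_good {P Q : Finset Cell} (hQ : Q.Nonempty) {s : ℕ} (hs : 1 ≤ s)
    (hsn : s ^ 2 ≤ P.card) : ∃ W : Finset Cell, W.card = s ∧ ∀ v ∈ W, Good P Q v := by
  obtain ⟨q₀, hq₀⟩ := hQ
  by_cases hY : s ≤ (P.image Prod.snd).card
  · obtain ⟨Y, hYs, hYc⟩ := exists_subset_card_eq hY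
    have hex : ∀ y ∈ Y, ∃ x : ℤ, Good P Q (x, y - q₀.2) := by
      intro y hy
      obtain ⟨p, hp, rfl⟩ := mem_image.1 (hYs hy)
      exact slide_x hp hq₀
    choose! f hf using hex
    refine ⟨Y.image fun y => (f y, y - q₀.2), ?_, ?_⟩
    · rw [card_image_of_injective, hYc]
      intro a b hab
      have := congrArg Prod.snd hab
      simp only at this
      omega
    · intro v hv
      obtain ⟨y, hy, rfl⟩ := mem_image.1 hv
      exact hf y hy
  · have hX : s ≤ (P.image Prod.fst).card := by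
      by_contra hX
      push Not at hX hY
      have h1 : P.card ≤ (P.image Prod.fst).card * (P.image Prod.snd).card := by
        rw [← card_product]
        apply card_le_card
        intro p hp
        exact mem_product.2 ⟨mem_image_of_mem _ hp, mem_image_of_mem _ hp⟩
      have h2 : (P.image Prod.fst).card * (P.image Prod.snd).card ≤ (s - 1) * (s - 1) :=
        Nat.mul_le_mul (by omega) (by omega)
      have h3 : (s - 1) * (s - 1) < s ^ 2 := by
        obtain ⟨r, rfl⟩ : ∃ r, s = r + 1 := ⟨s - 1, by omega⟩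
        simp only [Nat.add_sub_cancel]
        nlinarith
      omega
    obtain ⟨Y, hYs, hYc⟩ := exists_subset_card_eq hX
    have hex : ∀ y ∈ Y, ∃ x : ℤ, Good P Q (y - q₀.1, x) := by
      intro y hy
      obtain ⟨p, hp, rfl⟩ := mem_image.1 (hYs hy)
      exact slide_y hp hq₀
    choose! f hf using hex
    refine ⟨Y.image fun y => (y - q₀.1, f y), ?_, ?_⟩
    · rw [card_image_of_injective, hYc]
      intro a b hab
      have := congrArg Prod.fst hab
      simp only at this
      omega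
    · intro v hv
      obtain ⟨y, hy, rfl⟩ := mem_image.1 hv
      exact hf y hy

/-- normalized position -/
def Norm (S : Finset Cell) : Prop :=
  (∀ p ∈ S, 0 ≤ p.1 ∧ 0 ≤ p.2) ∧ (∃ p ∈ S, p.1 = 0) ∧ ∃ p ∈ S, p.2 = 0

theorem exists_norm {S : Finset Cell} (hS : S.Nonempty) : ∃ v, Norm (tr v S) := by
  obtain ⟨a, ha, hamin⟩ := exists_min_image S Prod.fst hS
  obtain ⟨b, hb, hbmin⟩ := exists_min_image S Prod.snd hS
  refine ⟨(-a.1, -b.2), ?_, ⟨a + (-a.1, -b.2), add_mem_tr ha, ?_⟩,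
    ⟨b + (-a.1, -b.2), add_mem_tr hb, ?_⟩⟩
  · intro p hp
    rw [mem_tr] at hp
    have h1 := hamin _ hp
    have h2 := hbmin _ hp
    simp only [Prod.fst_sub, Prod.snd_sub] at h1 h2
    constructor <;> omega
  · simp
  · simp

theorem norm_unique {S : Finset Cell} {v : Cell} (h : Norm S) (h' : Norm (tr v S)) : v = 0 := by
  obtain ⟨h1, ⟨a, ha, ha0⟩, b, hb, hb0⟩ := h
  obtain ⟨h1', ⟨a', ha', ha0'⟩, b', hb', hb0'⟩ := h'
  have e1 := (h1' _ (add_mem_tr (v := v) ha)).1
  have e2 := (h1' _ (add_mem_tr (v := v) hb)).2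
  have e3 := (h1 _ (mem_tr.1 ha')).1
  have e4 := (h1 _ (mem_tr.1 hb')).2
  simp only [Prod.fst_add, Prod.snd_add, Prod.fst_sub, Prod.snd_sub] at e1 e2 e3 e4
  refine Prod.ext ?_ ?_
  · simp only [Prod.fst_zero]; omega
  · simp only [Prod.snd_zero]; omega

theorem ivt1 {S : Finset Cell} (hS : Conn S) {a b : Cell} (ha : a ∈ S) (hb : b ∈ S) (j : ℤ)
    (h1 : a.1 ≤ j) (h2 : j ≤ b.1) : ∃ p ∈ S, p.1 = j := by
  have h := hS a ha b hb
  have gen : ∀ c, Relation.ReflTransGen (fun x y => x ∈ S ∧ y ∈ S ∧ Adj x y) a c →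
      j ≤ c.1 → ∃ p ∈ S, p.1 = j := by
    intro c hc
    induction hc with
    | refl => intro h; exact ⟨a, ha, by omega⟩
    | @tail b' c' _ hbc ih =>
      intro h
      by_cases hj : j = c'.1
      · exact ⟨c', hbc.2.1, hj.symm⟩
      · apply ih
        have := hbc.2.2
        unfold Adj at this
        omega
  exact gen b h h2

theorem ivt2 {S : Finset Cell} (hS : Conn S) {a b : Cell} (ha : a ∈ S) (hb : b ∈ S) (j : ℤ)
    (h1 : a.2 ≤ j) (h2 : j ≤ b.2) : ∃ p ∈ S, p.2 = j := by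
  have h := hS a ha b hb
  have gen : ∀ c, Relation.ReflTransGen (fun x y => x ∈ S ∧ y ∈ S ∧ Adj x y) a c →
      j ≤ c.2 → ∃ p ∈ S, p.2 = j := by
    intro c hc
    induction hc with
    | refl => intro h; exact ⟨a, ha, by omega⟩
    | @tail b' c' _ hbc ih =>
      intro h
      by_cases hj : j = c'.2
      · exact ⟨c', hbc.2.1, hj.symm⟩
      · apply ih
        have := hbc.2.2
        unfold Adj at this
        omega
  exact gen b h h2

theorem bounded {n : ℕ} {S : Finset Cell} (hS : IsOmino n S) (hN : Norm S) :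
    ∀ p ∈ S, p.1 ≤ n ∧ p.2 ≤ n := by
  intro p hp
  obtain ⟨h0, ⟨a, ha, ha0⟩, b, hb, hb0⟩ := hN
  constructor
  · have hsub : Finset.Icc 0 p.1 ⊆ S.image Prod.fst := by
      intro j hj
      rw [Finset.mem_Icc] at hj
      obtain ⟨q, hq, hqj⟩ := ivt1 hS.2 ha hp j (by omega) hj.2
      exact mem_image.2 ⟨q, hq, hqj⟩
    have h1 := card_le_card hsub
    have h2 : (S.image Prod.fst).card ≤ S.card := card_image_le
    rw [Int.card_Icc] at h1
    rw [hS.1] at h2
    omega
  · have hsub : Finset.Icc 0 p.2 ⊆ S.image Prod.snd := by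
      intro j hj
      rw [Finset.mem_Icc] at hj
      obtain ⟨q, hq, hqj⟩ := ivt2 hS.2 hb hp j (by omega) hj.2
      exact mem_image.2 ⟨q, hq, hqj⟩
    have h1 := card_le_card hsub
    have h2 : (S.image Prod.snd).card ≤ S.card := card_image_le
    rw [Int.card_Icc] at h1
    rw [hS.1] at h2
    omega

/-- normalized `n`-ominoes -/
def F (n : ℕ) : Set (Finset Cell) := {S | IsOmino n S ∧ Norm S}

theorem finite_F (n : ℕ) : (F n).Finite := by
  apply Set.Finite.subset
    (Finset.finite_toSet ((Finset.Icc (0 : ℤ) n ×ˢ Finset.Icc (0 : ℤ) n).powerset))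
  intro S hS
  rw [mem_coe, mem_powerset]
  intro p hp
  have h1 := hS.2.1 p hp
  have h2 := bounded hS.1 hS.2 p hp
  rw [mem_product, Finset.mem_Icc, Finset.mem_Icc]
  exact ⟨⟨h1.1, h2.1⟩, h1.2, h2.2⟩

/-- translation classes -/
def setoid (n : ℕ) : Setoid {S : Finset Cell // IsOmino n S} where
  r S S' := ∃ v : Cell, (S' : Finset Cell) = (S : Finset Cell).image fun p => p + v
  iseqv := by
    refine ⟨fun S => ⟨0, ?_⟩, ?_, ?_⟩
    · exact (tr_zero S.1).symm
    · rintro S S' ⟨v, hv⟩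
      refine ⟨-v, ?_⟩
      change S.1 = tr (-v) S'.1
      have : S'.1 = tr v S.1 := hv
      rw [this, tr_tr, add_neg_cancel, tr_zero]
    · rintro S S' S'' ⟨v, hv⟩ ⟨w, hw⟩
      refine ⟨v + w, ?_⟩
      change S''.1 = tr (v + w) S.1
      have h1 : S'.1 = tr v S.1 := hv
      have h2 : S''.1 = tr w S'.1 := hw
      rw [h2, h1, tr_tr]

/-- the number of fixed `n`-ominoes -/
noncomputable def t (n : ℕ) : ℕ := Nat.card (Quotient (setoid n))

theorem t_eq {n : ℕ} (hn : 1 ≤ n) : t n = (finite_F n).toFinset.card := by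
  have hbij : Function.Bijective (fun S : F n => (Quotient.mk (setoid n) ⟨S.1, S.2.1⟩)) := by
    constructor
    · intro S S' h
      obtain ⟨v, hv⟩ := Quotient.exact h
      have hv' : S'.1 = tr v S.1 := hv
      have h0 : v = 0 := norm_unique S.2.2 (by rw [← hv']; exact S'.2.2)
      rw [h0, tr_zero] at hv'
      exact Subtype.ext hv'.symm
    · intro c
      obtain ⟨S, rfl⟩ := Quotient.exists_rep c
      have hne : S.1.Nonempty := card_pos.1 (by rw [S.2.1]; omega)
      obtain ⟨v, hv⟩ := exists_norm hne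
      refine ⟨⟨tr v S.1, omino_tr v S.2, hv⟩, ?_⟩
      apply Quotient.sound
      refine ⟨-v, ?_⟩
      change S.1 = tr (-v) (tr v S.1)
      rw [tr_tr, add_neg_cancel, tr_zero]
  unfold t
  rw [← Nat.card_eq_of_bijective _ hbij, Nat.card_coe_set_eq,
    Set.ncard_eq_toFinset_card _ (finite_F n)]

theorem ineq {n s : ℕ} (hn : 1 ≤ n) (hs : s ^ 2 ≤ n) : s * t n ^ 2 ≤ 2 * t (2 * n + 1) := by
  classical
  rcases Nat.eq_zero_or_pos s with rfl | hs1
  · simp
  rw [t_eq hn, t_eq (by omega : 1 ≤ 2 * n + 1)]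
  set A := (finite_F n).toFinset with hA
  set B := (finite_F (2 * n + 1)).toFinset with hB
  have hW : ∀ pq ∈ A ×ˢ A, ∃ W : Finset Cell, W.card = s ∧ ∀ v ∈ W, Good pq.1 pq.2 v := by
    intro pq hpq
    obtain ⟨hp, hq⟩ := mem_product.1 hpq
    rw [hA, Set.Finite.mem_toFinset] at hp hq
    have h1 : pq.2.Nonempty := card_pos.1 (by rw [hq.1.1]; omega)
    exact many_good h1 hs1 (by rw [hp.1.1]; exact hs)
  choose! W hWc hWg using hW
  set X : Finset (Σ _ : Finset Cell × Finset Cell, Cell) := (A ×ˢ A).sigma W with hX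
  have hXc : X.card = s * A.card ^ 2 := by
    rw [hX, card_sigma, sum_congr rfl hWc, sum_const, card_product, smul_eq_mul]
    ring
  -- the join
  have hf : ∀ x ∈ X, ∃ R ∈ B, ∃ c w : Cell,
      R = tr w (insert c (x.1.1 ∪ tr x.2 x.1.2)) ∧ c ∉ x.1.1 ∪ tr x.2 x.1.2 ∧
      (∃ p ∈ x.1.1, Adj p c) ∧ (∃ q ∈ tr x.2 x.1.2, Adj q c) ∧ Apart x.1.1 (tr x.2 x.1.2) := by
    intro x hx
    obtain ⟨hx1, hx2⟩ := mem_sigma.1 hx
    have hg := hWg x.1 hx1 x.2 hx2
    obtain ⟨hp, hq⟩ := mem_product.1 hx1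
    rw [hA, Set.Finite.mem_toFinset] at hp hq
    obtain ⟨hap, c, ⟨p, hpP, hpc⟩, q, hqQ, hqc⟩ := hg
    have hapart : Apart x.1.1 (tr x.2 x.1.2) := by
      intro a ha b hb
      have := hap a ha (b - x.2) (mem_tr.1 hb)
      rwa [sub_add_cancel] at this
    have hc : c ∉ x.1.1 ∪ tr x.2 x.1.2 := by
      intro h
      rcases mem_union.1 h with h | h
      · exact (hapart c h (q + x.2) (add_mem_tr hqQ)).2 hqc.symm
      · exact (hapart p hpP c h).2 hpc
    have hconn : Conn (insert c (x.1.1 ∪ tr x.2 x.1.2)) :=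
      conn_join hp.1.2 (conn_tr _ hq.1.2) hpP (add_mem_tr hqQ) hpc hqc
    have hdisj : Disjoint x.1.1 (tr x.2 x.1.2) := by
      rw [disjoint_left]
      intro a ha hb
      exact (hapart a ha a hb).1 rfl
    have hcard : (insert c (x.1.1 ∪ tr x.2 x.1.2)).card = 2 * n + 1 := by
      rw [card_insert_of_notMem hc, card_union_of_disjoint hdisj, card_tr, hp.1.1, hq.1.1]
      ring
    obtain ⟨w, hw⟩ := exists_norm (S := insert c (x.1.1 ∪ tr x.2 x.1.2)) ⟨c, mem_insert_self _ _⟩
    refine ⟨_, ?_, c, w, rfl, hc, ⟨p, hpP, hpc⟩, ⟨q + x.2, add_mem_tr hqQ, hqc⟩, hapart⟩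
    rw [hB, Set.Finite.mem_toFinset]
    exact ⟨omino_tr w ⟨hcard, hconn⟩, hw⟩
  choose! f hfB c w hfR hfc hfP hfQ hfA using hf
  have hle : X.card ≤ 2 * (X.image f).card := by
    apply card_le_mul_card_image
    intro b hb
    obtain ⟨x, hx, hxb⟩ := mem_image.1 hb
    have hsub : X.filter (fun y => f y = b) ⊆ {x, ⟨(x.1.2, x.1.1), -x.2⟩} := by
      intro y hy
      rw [mem_filter] at hy
      obtain ⟨hyX, hyb⟩ := hy
      have hfxy : f x = f y := hxb.trans hyb.symm
      rw [hfR x hx, hfR y hyX] at hfxy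
      -- translate back
      have h1 : insert (c x + (w x - w y)) (tr (w x - w y) x.1.1 ∪ tr (x.2 + (w x - w y)) x.1.2) =
          insert (c y) (y.1.1 ∪ tr y.2 y.1.2) := by
        have h2 := congrArg (tr (-(w y))) hfxy
        rw [tr_tr, tr_tr, add_neg_cancel, tr_zero, ← sub_eq_add_neg, tr_insert, tr_union, tr_tr]
          at h2
        exact h2
      have hxA := (mem_sigma.1 hx).1
      have hyA := (mem_sigma.1 hyX).1
      obtain ⟨hp, hq⟩ := mem_product.1 hxA
      obtain ⟨hp', hq'⟩ := mem_product.1 hyA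
      rw [hA, Set.Finite.mem_toFinset] at hp hq hp' hq'
      set u := w x - w y with hu
      have htr : tr (x.2 + u) x.1.2 = tr u (tr x.2 x.1.2) := (tr_tr _ _ _).symm
      rw [htr] at h1
      have hu1 := uniq hn (omino_tr u hp.1) (omino_tr u (omino_tr x.2 hq.1)) hp'.1
        (omino_tr y.2 hq'.1)
        (by
          intro a ha b hb
          have h3 := hfA x hx _ (mem_tr.1 ha) _ (mem_tr.1 hb)
          refine ⟨fun h => h3.1 (by rw [h]), fun h => h3.2 ?_⟩
          have : Adj (a + -u) (b + -u) := (adj_add (-u)).2 h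
          simpa [sub_eq_add_neg] using this)
        (hfA y hyX)
        (by
          intro h
          rw [← tr_union, mem_tr, add_sub_cancel_right] at h
          exact hfc x hx h)
        (hfc y hyX)
        (by
          obtain ⟨p, hpP, hpc⟩ := hfP x hx
          exact ⟨p + u, add_mem_tr hpP, (adj_add u).2 hpc⟩)
        (by
          obtain ⟨p, hpP, hpc⟩ := hfQ x hx
          exact ⟨p + u, add_mem_tr hpP, (adj_add u).2 hpc⟩)
        h1
      rw [mem_insert, mem_singleton]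
      rcases hu1 with ⟨e1, e2⟩ | ⟨e1, e2⟩
      · left
        have hu0 : u = 0 := norm_unique hp.2 (by rw [e1]; exact hp'.2)
        rw [hu0, tr_zero] at e1 e2
        have e3 : x.1.2 = tr (y.2 + -x.2) y.1.2 := by
          have := congrArg (tr (-x.2)) e2
          rwa [tr_tr, add_neg_cancel, tr_zero, tr_tr] at this
        have h0 : y.2 + -x.2 = 0 := norm_unique hq'.2 (by rw [← e3]; exact hq.2)
        have hv : y.2 = x.2 := by rwa [← sub_eq_add_neg, sub_eq_zero] at h0
        rw [h0, tr_zero] at e3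
        have e4 : y.1 = x.1 := Prod.ext e1.symm e3.symm
        obtain ⟨y1, y2⟩ := y
        obtain ⟨x1, x2⟩ := x
        simp only at e4 hv
        subst e4 hv
        rfl
      · right
        have e3 : tr (x.2 + u) x.1.2 = y.1.1 := by rw [← tr_tr]; exact e2
        have h0 : x.2 + u = 0 := norm_unique hq.2 (by rw [e3]; exact hp'.2)
        rw [h0, tr_zero] at e3
        have e4 : x.1.1 = tr (y.2 + -u) y.1.2 := by
          have := congrArg (tr (-u)) e1
          rwa [tr_tr, add_neg_cancel, tr_zero, tr_tr] at this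
        have h5 : y.2 + -u = 0 := norm_unique hq'.2 (by rw [← e4]; exact hp.2)
        rw [h5, tr_zero] at e4
        have hv : y.2 = - x.2 := by
          have h6 : y.2 = u := by rwa [← sub_eq_add_neg, sub_eq_zero] at h5
          rw [h6]
          exact eq_neg_of_add_eq_zero_right h0
        obtain ⟨⟨y1, y1'⟩, y2⟩ := y
        obtain ⟨⟨x1, x1'⟩, x2⟩ := x
        simp only at e3 e4 hv ⊢
        subst e3 e4 hv
        rfl
    exact (card_le_card hsub).trans card_le_two
  have himg : (X.image f).card ≤ B.card := by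
    apply card_le_card
    intro b hb
    obtain ⟨x, hx, rfl⟩ := mem_image.1 hb
    exact hfB x hx
  calc s * A.card ^ 2 = X.card := hXc.symm
    _ ≤ 2 * (X.image f).card := hle
    _ ≤ 2 * B.card := by omega

theorem t_one : 1 ≤ t 1 := by
  rw [t_eq le_rfl]
  apply card_pos.2
  refine ⟨{(0, 0)}, ?_⟩
  rw [Set.Finite.mem_toFinset]
  refine ⟨⟨card_singleton _, ?_⟩, ?_, ⟨(0, 0), mem_singleton_self _, rfl⟩,
    ⟨(0, 0), mem_singleton_self _, rfl⟩⟩
  · intro a ha b hb
    rw [mem_singleton] at ha hb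
    rw [ha, hb]
  · intro p hp
    rw [mem_singleton] at hp
    rw [hp]
    simp

end Pool.Agent.R670.Poly
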