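import Mathlib

/-!
# A power series whose coefficients satisfy `s A(n)^2 ≤ 2 A(2n+1)` for `s^2 ≤ n` is not rational
-/

set_option autoImplicit false
open Polynomial Finset

namespace Pool.Agent.R670.Rat

/-- polynomially bounded after scaling by `R ^ n` -/
def PB (R : ℝ) (S : PowerSeries ℂ) : Prop :=
  ∃ (C : ℝ) (d : ℕ), 0 ≤ C ∧ ∀ n : ℕ, ‖PowerSeries.coeff n S‖ * R ^ n ≤ C * ((n : ℝ) + 1) ^ d

theorem PB_step {R : ℝ} (hR : 0 < R) {ζ : ℂ} (hζ : R ≤ ‖ζ‖) {S : PowerSeries ℂ}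
    (h : PB R (((X - C ζ : ℂ[X]) : PowerSeries ℂ) * S)) : PB R S := by
  obtain ⟨K, d, hK, h⟩ := h
  have hζ0 : 0 < ‖ζ‖ := lt_of_lt_of_le hR hζ
  have hζne : ζ ≠ 0 := norm_pos_iff.1 hζ0
  have e0 : PowerSeries.coeff 0 (((X - C ζ : ℂ[X]) : PowerSeries ℂ) * S) =
      - (ζ * PowerSeries.coeff 0 S) := by
    rw [Polynomial.coe_sub, Polynomial.coe_X, Polynomial.coe_C, sub_mul, map_sub]
    simp
  have e1 : ∀ n, PowerSeries.coeff (n + 1) (((X - C ζ : ℂ[X]) : PowerSeries ℂ) * S) =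
      PowerSeries.coeff n S - ζ * PowerSeries.coeff (n + 1) S := by
    intro n
    rw [Polynomial.coe_sub, Polynomial.coe_X, Polynomial.coe_C, sub_mul, map_sub,
      PowerSeries.coeff_succ_X_mul, PowerSeries.coeff_C_mul]
  refine ⟨K / R, d + 1, by positivity, ?_⟩
  intro n
  have hbound : ∀ n : ℕ, ‖PowerSeries.coeff n S‖ * R ^ n ≤
      ∑ k ∈ range (n + 1), K / R * ((k : ℝ) + 1) ^ d := by
    intro n
    induction n with
    | zero =>
      have h0 := h 0
      rw [e0, norm_neg, norm_mul] at h0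
      simp only [pow_zero, mul_one, Nat.cast_zero, zero_add, one_pow] at h0
      simp only [pow_zero, mul_one, zero_add, range_one, sum_singleton, Nat.cast_zero, one_pow]
      rw [le_div_iff₀ hR]
      calc ‖PowerSeries.coeff 0 S‖ * R ≤ ‖PowerSeries.coeff 0 S‖ * ‖ζ‖ := by gcongr
        _ = ‖ζ‖ * ‖PowerSeries.coeff 0 S‖ := mul_comm _ _
        _ ≤ K := h0
    | succ n ih =>
      rw [sum_range_succ]
      have h1 := h (n + 1)
      rw [e1] at h1
      have h2 : ‖ζ‖ * ‖PowerSeries.coeff (n + 1) S‖ ≤ ‖PowerSeries.coeff n S‖ +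
          ‖PowerSeries.coeff n S - ζ * PowerSeries.coeff (n + 1) S‖ := by
        rw [← norm_mul]
        have : ζ * PowerSeries.coeff (n + 1) S = PowerSeries.coeff n S -
          (PowerSeries.coeff n S - ζ * PowerSeries.coeff (n + 1) S) := by ring
        calc ‖ζ * PowerSeries.coeff (n + 1) S‖ = ‖PowerSeries.coeff n S -
          (PowerSeries.coeff n S - ζ * PowerSeries.coeff (n + 1) S)‖ := by rw [← this]
          _ ≤ _ := norm_sub_le _ _
      have h3 : R * (‖PowerSeries.coeff (n + 1) S‖ * R ^ (n + 1)) ≤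
          R * (‖PowerSeries.coeff n S‖ * R ^ n) + K * (((n + 1 : ℕ) : ℝ) + 1) ^ d := by
        calc R * (‖PowerSeries.coeff (n + 1) S‖ * R ^ (n + 1))
            ≤ ‖ζ‖ * (‖PowerSeries.coeff (n + 1) S‖ * R ^ (n + 1)) := by gcongr
          _ = (‖ζ‖ * ‖PowerSeries.coeff (n + 1) S‖) * R ^ (n + 1) := by ring
          _ ≤ (‖PowerSeries.coeff n S‖ +
          ‖PowerSeries.coeff n S - ζ * PowerSeries.coeff (n + 1) S‖) * R ^ (n + 1) := by gcongr
          _ = R * (‖PowerSeries.coeff n S‖ * R ^ n) +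
            ‖PowerSeries.coeff n S - ζ * PowerSeries.coeff (n + 1) S‖ * R ^ (n + 1) := by ring
          _ ≤ _ := by gcongr
      have h4 : ‖PowerSeries.coeff (n + 1) S‖ * R ^ (n + 1) ≤
          ‖PowerSeries.coeff n S‖ * R ^ n + K / R * (((n + 1 : ℕ) : ℝ) + 1) ^ d := by
        have : R * (‖PowerSeries.coeff n S‖ * R ^ n + K / R * (((n + 1 : ℕ) : ℝ) + 1) ^ d) =
          R * (‖PowerSeries.coeff n S‖ * R ^ n) + K * (((n + 1 : ℕ) : ℝ) + 1) ^ d := by
          field_simp
        exact le_of_mul_le_mul_left (by rw [this]; exact h3) hR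
      linarith
  refine (hbound n).trans ?_
  calc ∑ k ∈ range (n + 1), K / R * ((k : ℝ) + 1) ^ d
      ≤ ∑ k ∈ range (n + 1), K / R * ((n : ℝ) + 1) ^ d := by
        refine sum_le_sum fun k hk => ?_
        have : (k : ℝ) ≤ n := by exact_mod_cast Nat.lt_succ_iff.1 (mem_range.1 hk)
        gcongr
    _ = K / R * ((n : ℝ) + 1) ^ (d + 1) := by
        rw [sum_const, card_range, nsmul_eq_mul, pow_succ]
        push_cast
        ring

theorem PB_prod {R : ℝ} (hR : 0 < R) (m : Multiset ℂ) (hm : ∀ a ∈ m, R ≤ ‖a‖) :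
    ∀ S : PowerSeries ℂ,
      PB R ((((m.map fun a => X - C a).prod : ℂ[X]) : PowerSeries ℂ) * S) → PB R S := by
  induction m using Multiset.induction_on with
  | empty =>
    intro S h
    simpa using h
  | cons a m ih =>
    intro S h
    rw [Multiset.map_cons, Multiset.prod_cons, Polynomial.coe_mul, mul_assoc] at h
    exact ih (fun b hb => hm b (Multiset.mem_cons_of_mem hb)) S
      (PB_step hR (hm a (Multiset.mem_cons_self a m)) h)

theorem PB_poly {R : ℝ} (hR : 0 < R) (P : ℂ[X]) : PB R (P : PowerSeries ℂ) := by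
  refine ⟨∑ k ∈ range (P.natDegree + 1), ‖P.coeff k‖ * R ^ k, 0, by positivity, ?_⟩
  intro n
  rw [Polynomial.coeff_coe, pow_zero, mul_one]
  by_cases hn : n ≤ P.natDegree
  · exact single_le_sum (f := fun k => ‖P.coeff k‖ * R ^ k) (fun i _ => by positivity)
      (mem_range.2 (Nat.lt_succ_of_le hn))
  · rw [P.coeff_eq_zero_of_natDegree_lt (not_le.1 hn), norm_zero, zero_mul]
    positivity

/-- a root of minimal absolute value bounds the coefficients -/
theorem PB_of_eq {R : ℝ} (hR : 0 < R) {P Q : ℂ[X]} (hQ : Q ≠ 0)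
    (hroot : ∀ a ∈ Q.roots, R ≤ ‖a‖) {S : PowerSeries ℂ}
    (h : (Q : PowerSeries ℂ) * S = (P : PowerSeries ℂ)) : PB R S := by
  have hs : Q.Splits := IsAlgClosed.splits Q
  have hf : Q = C Q.leadingCoeff * (Q.roots.map fun a => X - C a).prod := hs.eq_prod_roots
  have hlc : Q.leadingCoeff ≠ 0 := leadingCoeff_ne_zero.2 hQ
  apply PB_prod hR Q.roots hroot
  set M : ℂ[X] := (Q.roots.map fun a => X - C a).prod with hMdef
  set l : ℂ := Q.leadingCoeff with hl
  have hM : M = C l⁻¹ * Q := by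
    calc M = C (l⁻¹ * l) * M := by rw [inv_mul_cancel₀ hlc, C_1, one_mul]
      _ = C l⁻¹ * (C l * M) := by rw [C_mul, mul_assoc]
      _ = C l⁻¹ * Q := by rw [← hf]
  have : (M : PowerSeries ℂ) * S = ((C l⁻¹ * P : ℂ[X]) : PowerSeries ℂ) := by
    rw [hM, Polynomial.coe_mul, mul_assoc, h, Polynomial.coe_mul]
  rw [this]
  exact PB_poly hR _

/-- the real sequence `b n = A n * R ^ n` tends to zero -/
theorem tendsto_zero {R : ℝ} (hR : 0 < R) (A : ℕ → ℕ)
    (hA : ∀ n s : ℕ, 1 ≤ n → s ^ 2 ≤ n → s * A n ^ 2 ≤ 2 * A (2 * n + 1))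
    {K : ℝ} {d : ℕ} (hb : ∀ n : ℕ, (A n : ℝ) * R ^ n ≤ K * ((n : ℝ) + 1) ^ d) (_hK : 0 ≤ K) :
    Filter.Tendsto (fun n : ℕ => (A n : ℝ) * R ^ n) Filter.atTop (nhds 0) := by
  set g : ℕ → ℝ := fun n => (Nat.sqrt n : ℝ) * R / 2 with hg
  have gmono : ∀ m n, m ≤ n → g m ≤ g n := by
    intro m n h
    have : (Nat.sqrt m : ℝ) ≤ Nat.sqrt n := by exact_mod_cast Nat.sqrt_le_sqrt h
    simp only [hg]
    gcongr
  have g0 : ∀ n, 0 ≤ g n := fun n => by simp only [hg]; positivity
  have gle : ∀ n : ℕ, g n ≤ ((n : ℝ) + 1) * R := by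
    intro n
    have : (Nat.sqrt n : ℝ) ≤ n := by exact_mod_cast Nat.sqrt_le_self n
    have h2 : (0:ℝ) ≤ (Nat.sqrt n : ℝ) := by positivity
    simp only [hg]
    nlinarith
  set b : ℕ → ℝ := fun n => (A n : ℝ) * R ^ n with hbdef
  have b0 : ∀ n, 0 ≤ b n := fun n => by simp only [hbdef]; positivity
  have step : ∀ n, 1 ≤ n → g n * b n ^ 2 ≤ b (2 * n + 1) := by
    intro n hn
    have h1 := hA n (Nat.sqrt n) hn (by rw [pow_two]; exact Nat.sqrt_le n)
    have h2 : (Nat.sqrt n : ℝ) * (A n : ℝ) ^ 2 ≤ 2 * (A (2 * n + 1) : ℝ) := by exact_mod_cast h1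
    simp only [hg, hbdef]
    calc (Nat.sqrt n : ℝ) * R / 2 * ((A n : ℝ) * R ^ n) ^ 2
        = ((Nat.sqrt n : ℝ) * (A n : ℝ) ^ 2) * (R ^ (2 * n + 1) / 2) := by
          have e : R ^ (2 * n + 1) = (R ^ n) ^ 2 * R := by
            rw [pow_succ, mul_comm 2 n, pow_mul]
          rw [e]; ring
      _ ≤ (2 * (A (2 * n + 1) : ℝ)) * (R ^ (2 * n + 1) / 2) := by gcongr
      _ = _ := by ring
  set c : ℕ → ℝ := fun n => g n * b n with hc
  have c0 : ∀ n, 0 ≤ c n := fun n => mul_nonneg (g0 n) (b0 n)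
  have cstep : ∀ n, 1 ≤ n → c n ^ 2 ≤ c (2 * n + 1) := by
    intro n hn
    calc c n ^ 2 = g n * (g n * b n ^ 2) := by simp only [hc]; ring
      _ ≤ g (2 * n + 1) * b (2 * n + 1) := by
        apply mul_le_mul (gmono _ _ (by omega)) (step n hn)
        · exact mul_nonneg (g0 n) (by positivity)
        · exact g0 _
  have cle : ∀ n, 1 ≤ n → c n ≤ 1 := by
    intro n hn
    by_contra hcon
    push Not at hcon
    -- iterate
    have it : ∀ k : ℕ, c n ^ (2 ^ k) ≤ c (2 ^ k * (n + 1) - 1) := by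
      intro k
      induction k with
      | zero => simp
      | succ k ih =>
        have hpos : 1 ≤ 2 ^ k * (n + 1) - 1 := by
          have : 2 ≤ 2 ^ k * (n + 1) := by
            calc 2 ≤ 1 * (n + 1) := by omega
              _ ≤ 2 ^ k * (n + 1) := Nat.mul_le_mul_right _ Nat.one_le_two_pow
          omega
        have e : 2 * (2 ^ k * (n + 1) - 1) + 1 = 2 ^ (k + 1) * (n + 1) - 1 := by
          have : 2 ^ (k + 1) * (n + 1) = 2 * (2 ^ k * (n + 1)) := by rw [pow_succ]; ring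
          omega
        calc c n ^ (2 ^ (k + 1)) = (c n ^ (2 ^ k)) ^ 2 := by rw [pow_succ, pow_mul]
          _ ≤ c (2 ^ k * (n + 1) - 1) ^ 2 := by
            apply pow_le_pow_left₀ (pow_nonneg (c0 n) _) ih
          _ ≤ c (2 * (2 ^ k * (n + 1) - 1) + 1) := cstep _ hpos
          _ = _ := by rw [e]
    have up : ∀ k : ℕ, c (2 ^ k * (n + 1) - 1) ≤
        R * K * ((n : ℝ) + 1) ^ (d + 1) * ((2 ^ k : ℕ) : ℝ) ^ (d + 1) := by
      intro k
      have e : ((2 ^ k * (n + 1) - 1 : ℕ) : ℝ) + 1 = ((2 ^ k : ℕ) : ℝ) * ((n : ℝ) + 1) := by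
        have h1 : 1 ≤ 2 ^ k * (n + 1) := by
          calc 1 ≤ 1 * (n + 1) := by omega
              _ ≤ 2 ^ k * (n + 1) := Nat.mul_le_mul_right _ Nat.one_le_two_pow
        rw [Nat.cast_sub h1]
        push_cast
        ring
      have h1 := gle (2 ^ k * (n + 1) - 1)
      have h2 := hb (2 ^ k * (n + 1) - 1)
      rw [e] at h1 h2
      calc c (2 ^ k * (n + 1) - 1) ≤ (((2 ^ k : ℕ) : ℝ) * ((n : ℝ) + 1) * R) *
          (K * (((2 ^ k : ℕ) : ℝ) * ((n : ℝ) + 1)) ^ d) := by
            apply mul_le_mul h1 h2 (b0 _) (by positivity)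
        _ = _ := by rw [mul_pow, pow_succ, pow_succ]; ring
    -- contradiction by growth
    have hlim : Filter.Tendsto (fun m : ℕ => (m : ℝ) ^ (d + 1) / c n ^ m) Filter.atTop (nhds 0) :=
      tendsto_pow_const_div_const_pow_of_one_lt (d + 1) hcon
    have hlim2 : Filter.Tendsto (fun m : ℕ => R * K * ((n : ℝ) + 1) ^ (d + 1) *
        ((m : ℝ) ^ (d + 1) / c n ^ m)) Filter.atTop (nhds 0) := by
      have := hlim.const_mul (R * K * ((n : ℝ) + 1) ^ (d + 1))
      rwa [mul_zero] at this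
    have hev := (hlim2.eventually_lt_const (zero_lt_one)).and (Filter.eventually_ge_atTop 1)
    obtain ⟨m0, hm0⟩ := Filter.eventually_atTop.1 hev
    have h3 := (hm0 (2 ^ m0) (Nat.lt_two_pow_self).le).1
    have h4 : (0:ℝ) < c n ^ (2 ^ m0) := pow_pos (by linarith) _
    rw [← mul_div_assoc, div_lt_one h4] at h3
    exact absurd ((it m0).trans (up m0)) (not_le.2 h3)
  -- conclude
  rw [Metric.tendsto_atTop]
  intro ε hε
  obtain ⟨s, hs⟩ := exists_nat_gt (2 / (R * ε))
  refine ⟨(s + 1) ^ 2, fun n hn => ?_⟩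
  have hn1 : 1 ≤ n := le_trans (Nat.one_le_pow _ _ (by omega)) hn
  have hsq : s + 1 ≤ Nat.sqrt n := Nat.le_sqrt'.2 hn
  have h5 : (s : ℝ) ≤ Nat.sqrt n := by
    have : s ≤ Nat.sqrt n := by omega
    exact_mod_cast this
  rw [Real.dist_eq, sub_zero, abs_of_nonneg (b0 n)]
  have h6 := cle n hn1
  simp only [hc, hg] at h6
  have h7 : 2 < R * ε * (Nat.sqrt n : ℝ) := by
    have : 2 < s * (R * ε) := by
      rwa [div_lt_iff₀ (by positivity)] at hs
    calc 2 < s * (R * ε) := this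
      _ ≤ (Nat.sqrt n : ℝ) * (R * ε) := by gcongr
      _ = _ := by ring
  by_contra hcon
  push Not at hcon
  have h8 : (Nat.sqrt n : ℝ) * R / 2 * ε ≤ (Nat.sqrt n : ℝ) * R / 2 * b n := by gcongr
  have h9 : (1:ℝ) < (Nat.sqrt n : ℝ) * R / 2 * ε := by
    have : (Nat.sqrt n : ℝ) * R / 2 * ε = (R * ε * (Nat.sqrt n : ℝ)) / 2 := by ring
    rw [this]
    linarith
  linarith

/-- the generating function -/
noncomputable def gf (A : ℕ → ℕ) : PowerSeries ℂ :=
  PowerSeries.mk fun n => if n = 0 then 0 else (A n : ℂ)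

theorem not_rational (A : ℕ → ℕ) (h1 : 1 ≤ A 1)
    (hA : ∀ n s : ℕ, 1 ≤ n → s ^ 2 ≤ n → s * A n ^ 2 ≤ 2 * A (2 * n + 1)) :
    ¬ ∃ P Q : ℂ[X], Q ≠ 0 ∧ (Q : PowerSeries ℂ) * gf A = (P : PowerSeries ℂ) := by
  classical
  rintro ⟨P₀, Q₀, hQ₀, h₀⟩
  -- coprime numerator and denominator
  obtain ⟨P, Q, hQ, h, hcop⟩ : ∃ P Q : ℂ[X], Q ≠ 0 ∧
      (Q : PowerSeries ℂ) * gf A = (P : PowerSeries ℂ) ∧ IsCoprime P Q := by
    obtain ⟨G, hG0, P, Q, hP, hQ, u, v, hbez⟩ : ∃ G : ℂ[X], G ≠ 0 ∧ ∃ P Q : ℂ[X], P₀ = G * P ∧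
        Q₀ = G * Q ∧ ∃ u v : ℂ[X], G = P₀ * u + Q₀ * v := by
      obtain ⟨P, hP⟩ := EuclideanDomain.gcd_dvd_left P₀ Q₀
      obtain ⟨Q, hQ⟩ := EuclideanDomain.gcd_dvd_right P₀ Q₀
      exact ⟨EuclideanDomain.gcd P₀ Q₀, fun h => hQ₀ (EuclideanDomain.gcd_eq_zero_iff.1 h).2,
        P, Q, hP, hQ, _, _, EuclideanDomain.gcd_eq_gcd_ab P₀ Q₀⟩
    subst hP hQ
    refine ⟨P, Q, right_ne_zero_of_mul hQ₀, ?_, u, v, ?_⟩
    · rw [Polynomial.coe_mul, Polynomial.coe_mul, mul_assoc] at h₀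
      have hGc : ((G : ℂ[X]) : PowerSeries ℂ) ≠ 0 := by
        rw [Ne, Polynomial.coe_eq_zero_iff]
        exact hG0
      exact mul_left_cancel₀ hGc h₀
    · have : G * (u * P + v * Q) = G * 1 := by
        rw [mul_one]
        conv_rhs => rw [hbez]
        ring
      exact mul_left_cancel₀ hG0 this
  -- positive values along `2^k - 1`
  have hpos : ∀ k : ℕ, 1 ≤ A (2 ^ (k + 1) - 1) := by
    intro k
    induction k with
    | zero => simpa using h1
    | succ k ih =>
      have hk : 1 ≤ 2 ^ (k + 1) - 1 := by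
        have : 2 ≤ 2 ^ (k + 1) := by
          calc 2 = 2 ^ 1 := rfl
            _ ≤ 2 ^ (k + 1) := Nat.pow_le_pow_right (by norm_num) (by omega)
        omega
      have h2 := hA (2 ^ (k + 1) - 1) 1 hk (by simpa using hk)
      have e : 2 * (2 ^ (k + 1) - 1) + 1 = 2 ^ (k + 1 + 1) - 1 := by
        have : 2 ^ (k + 1 + 1) = 2 * 2 ^ (k + 1) := by rw [pow_succ]; ring
        omega
      rw [e] at h2
      have : 1 ≤ A (2 ^ (k + 1) - 1) ^ 2 := Nat.one_le_pow _ _ ih
      omega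
  have hfreq : ∀ N : ℕ, ∃ n, N < n ∧ A n ≠ 0 := by
    intro N
    refine ⟨2 ^ (N + 1 + 1) - 1, ?_, ?_⟩
    · have : N + 1 + 1 < 2 ^ (N + 1 + 1) := Nat.lt_two_pow_self
      omega
    · have := hpos (N + 1)
      omega
  have hA0 : ∀ D : ℕ, ∃ n, D < n ∧ PowerSeries.coeff n (gf A) ≠ 0 := by
    intro D
    obtain ⟨n, hn, hn2⟩ := hfreq D
    refine ⟨n, hn, ?_⟩
    rw [gf, PowerSeries.coeff_mk, if_neg (by omega)]
    exact_mod_cast hn2
  -- `Q` does not vanish at zero
  have hQ0 : Q.coeff 0 ≠ 0 := by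
    intro hq
    have hp : P.coeff 0 = 0 := by
      have := congrArg PowerSeries.constantCoeff h
      rw [map_mul, Polynomial.constantCoeff_coe, Polynomial.constantCoeff_coe, hq, zero_mul] at this
      exact this.symm
    obtain ⟨a, b, hab⟩ := hcop
    have := congrArg (fun p : ℂ[X] => p.coeff 0) hab
    simp only [coeff_add, mul_coeff_zero, hp, hq, mul_zero, add_zero, coeff_one_zero] at this
    exact zero_ne_one this
  -- there is a root
  have hroots : Q.roots ≠ 0 := by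
    intro hr
    have hdeg : Q.degree = 0 := by
      by_contra hd
      obtain ⟨z, hz⟩ := IsAlgClosed.exists_root Q hd
      have : z ∈ Q.roots := (mem_roots hQ).2 hz
      rw [hr] at this
      exact absurd this (Multiset.notMem_zero z)
    rw [eq_C_of_degree_eq_zero hdeg] at h
    obtain ⟨n, hn, hn2⟩ := hA0 P.natDegree
    have h2 := congrArg (PowerSeries.coeff n) h
    rw [Polynomial.coe_C, PowerSeries.coeff_C_mul, Polynomial.coeff_coe,
      P.coeff_eq_zero_of_natDegree_lt hn] at h2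
    rcases mul_eq_zero.1 h2 with h3 | h3
    · exact hQ0 h3
    · exact hn2 h3
  obtain ⟨w, hw⟩ := Multiset.exists_mem_of_ne_zero hroots
  obtain ⟨ζ, hζm, hζmin⟩ := Finset.exists_min_image Q.roots.toFinset (fun z => ‖z‖)
    ⟨w, Multiset.mem_toFinset.2 hw⟩
  have hζr : ζ ∈ Q.roots := Multiset.mem_toFinset.1 hζm
  have hζroot : Q.IsRoot ζ := (mem_roots hQ).1 hζr
  have hζ0 : ζ ≠ 0 := by
    rintro rfl
    exact hQ0 (by rwa [IsRoot, ← coeff_zero_eq_eval_zero] at hζroot)
  set R : ℝ := ‖ζ‖ with hRdef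
  have hR : 0 < R := norm_pos_iff.2 hζ0
  obtain ⟨K, d, hK, hb⟩ := PB_of_eq hR hQ
    (fun a ha => hζmin a (Multiset.mem_toFinset.2 ha)) h
  -- the sequence without the term 0
  have hb' : ∀ n : ℕ, (((fun n => if n = 0 then 0 else A n) n : ℕ) : ℝ) * R ^ n ≤
      K * ((n : ℝ) + 1) ^ d := by
    intro n
    have := hb n
    rw [gf, PowerSeries.coeff_mk] at this
    by_cases hn : n = 0
    · simp only [hn, if_true, Nat.cast_zero, zero_mul]
      positivity
    · simp only [hn, if_false] at this ⊢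
      simpa using this
  have hlim := tendsto_zero hR (fun n => if n = 0 then 0 else A n) (by
    intro n s hn hs
    have h2 : n ≠ 0 := by omega
    have h3 : 2 * n + 1 ≠ 0 := by omega
    simp only [h2, h3, if_false]
    exact hA n s hn hs) hb' hK
  have hlim' : Filter.Tendsto (fun n : ℕ => ‖PowerSeries.coeff n (gf A) * ζ ^ n‖) Filter.atTop
      (nhds 0) := by
    refine hlim.congr fun n => ?_
    rw [gf, PowerSeries.coeff_mk, norm_mul, norm_pow]
    by_cases hn : n = 0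
    · simp [hn]
    · simp only [hn, if_false, Complex.norm_natCast]
      rfl
  -- factor out the root
  obtain ⟨Q', hQ'⟩ := dvd_iff_isRoot.2 hζroot
  set T' : PowerSeries ℂ := (Q' : PowerSeries ℂ) * gf A with hT'
  have hfac : ((X - C ζ : ℂ[X]) : PowerSeries ℂ) * T' = P := by
    rw [hT', ← mul_assoc, ← Polynomial.coe_mul, ← hQ', h]
  have e0 : PowerSeries.coeff 0 (((X - C ζ : ℂ[X]) : PowerSeries ℂ) * T') =
      - (ζ * PowerSeries.coeff 0 T') := by
    rw [Polynomial.coe_sub, Polynomial.coe_X, Polynomial.coe_C, sub_mul, map_sub]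
    simp
  have e1 : ∀ n, PowerSeries.coeff (n + 1) (((X - C ζ : ℂ[X]) : PowerSeries ℂ) * T') =
      PowerSeries.coeff n T' - ζ * PowerSeries.coeff (n + 1) T' := by
    intro n
    rw [Polynomial.coe_sub, Polynomial.coe_X, Polynomial.coe_C, sub_mul, map_sub,
      PowerSeries.coeff_succ_X_mul, PowerSeries.coeff_C_mul]
  -- coefficients of T' scaled tend to zero
  have hlimT : Filter.Tendsto (fun n : ℕ => PowerSeries.coeff n T' * ζ ^ n) Filter.atTop
      (nhds 0) := by
    have key : ∀ n, Q'.natDegree ≤ n → PowerSeries.coeff n T' * ζ ^ n =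
        ∑ k ∈ range (Q'.natDegree + 1), (Q'.coeff k * ζ ^ k) *
          (PowerSeries.coeff (n - k) (gf A) * ζ ^ (n - k)) := by
      intro n hn
      rw [hT', PowerSeries.coeff_mul, Finset.Nat.sum_antidiagonal_eq_sum_range_succ_mk, sum_mul]
      have hsub : range (Q'.natDegree + 1) ⊆ range n.succ := by
        intro k hk
        rw [mem_range] at hk ⊢
        omega
      rw [← sum_subset hsub]
      · refine sum_congr rfl fun k hk => ?_
        have hkn : k ≤ n := by rw [mem_range] at hk; omega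
        rw [Polynomial.coeff_coe]
        have : ζ ^ n = ζ ^ k * ζ ^ (n - k) := by rw [← pow_add]; congr 1; omega
        rw [this]; ring
      · intro k _ hk
        rw [mem_range, not_lt] at hk
        rw [Polynomial.coeff_coe, Q'.coeff_eq_zero_of_natDegree_lt (by omega), zero_mul, zero_mul]
    have hgf : Filter.Tendsto (fun n : ℕ => PowerSeries.coeff n (gf A) * ζ ^ n) Filter.atTop
        (nhds 0) := tendsto_zero_iff_norm_tendsto_zero.2 hlim'
    have hsum : Filter.Tendsto (fun n : ℕ => ∑ k ∈ range (Q'.natDegree + 1), (Q'.coeff k * ζ ^ k) *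
          (PowerSeries.coeff (n - k) (gf A) * ζ ^ (n - k))) Filter.atTop
        (nhds (∑ k ∈ range (Q'.natDegree + 1), (Q'.coeff k * ζ ^ k) * 0)) := by
      refine tendsto_finsetSum _ fun k _ => ?_
      exact (hgf.comp (Filter.tendsto_sub_atTop_nat k)).const_mul _
    simp only [mul_zero, sum_const_zero] at hsum
    refine hsum.congr' ?_
    filter_upwards [Filter.eventually_ge_atTop Q'.natDegree] with n hn
    exact (key n hn).symm
  set D := P.natDegree with hD
  have hconst : ∀ n, PowerSeries.coeff (D + n) T' * ζ ^ (D + n) =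
      PowerSeries.coeff D T' * ζ ^ D := by
    intro n
    induction n with
    | zero => simp
    | succ n ih =>
      have h2 := congrArg (PowerSeries.coeff (D + n + 1)) hfac
      rw [e1, Polynomial.coeff_coe, P.coeff_eq_zero_of_natDegree_lt (by omega), sub_eq_zero] at h2
      rw [← ih, ← add_assoc, pow_succ, h2]
      ring
  have hTD : PowerSeries.coeff D T' = 0 := by
    have h2 : Filter.Tendsto (fun n : ℕ => PowerSeries.coeff (D + n) T' * ζ ^ (D + n))
        Filter.atTop (nhds 0) := by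
      have := hlimT.comp (Filter.tendsto_add_atTop_nat D)
      refine this.congr fun n => ?_
      simp only [Function.comp, add_comm n D]
    have h3 : Filter.Tendsto (fun _ : ℕ => PowerSeries.coeff D T' * ζ ^ D) Filter.atTop
        (nhds 0) := h2.congr hconst
    have h4 := tendsto_nhds_unique h3 tendsto_const_nhds
    have h5 : PowerSeries.coeff D T' * ζ ^ D = 0 := h4.symm
    rcases mul_eq_zero.1 h5 with h6 | h6
    · exact h6
    · exact absurd h6 (pow_ne_zero _ hζ0)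
  -- evaluate `P` at `ζ`
  have hev : ∀ n, ∑ k ∈ range (n + 1), P.coeff k * ζ ^ k = - (PowerSeries.coeff n T' * ζ ^ (n + 1)) := by
    intro n
    induction n with
    | zero =>
      have h2 := congrArg (PowerSeries.coeff 0) hfac
      rw [e0, Polynomial.coeff_coe] at h2
      simp only [zero_add, range_one, sum_singleton, pow_zero, mul_one, pow_one]
      rw [← h2]; ring
    | succ n ih =>
      have h2 := congrArg (PowerSeries.coeff (n + 1)) hfac
      rw [e1, Polynomial.coeff_coe] at h2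
      rw [sum_range_succ, ih, ← h2]
      ring
  have hPζ : P.eval ζ = 0 := by
    rw [eval_eq_sum_range, ← hD, hev D, hTD]
    simp
  obtain ⟨a, b, hab⟩ := hcop
  have h7 := congrArg (eval ζ) hab
  rw [eval_add, eval_mul, eval_mul, hPζ, hζroot, mul_zero, mul_zero, add_zero, eval_one] at h7
  exact zero_ne_one h7

end Pool.Agent.R670.Rat
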